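import Pool.Agent.Q152.QT.Stm

/-!
# Project QT of helper152, job QT1
-/

set_option autoImplicit false

namespace Pool.Agent.Q14.QT

open Finset
open Pool.Agent.Q152.QT

/-- the radical -/
def rd (n : ℕ) : ℕ := ∏ p ∈ n.primeFactors, p

theorem rd_mul {M n : ℕ} (hM : M ≠ 0) (hn : Squarefree n) :
    rd (M * n) * Nat.gcd n M = rd M * n := by
  have hn0 : n ≠ 0 := hn.ne_zero
  have hg : Nat.gcd n M = ∏ p ∈ n.primeFactors ∩ M.primeFactors, p := by
    rw [← Nat.primeFactors_gcd hn0 hM]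
    exact (Nat.prod_primeFactors_of_squarefree (hn.squarefree_of_dvd (Nat.gcd_dvd_left n M))).symm
  have hnn : n = ∏ p ∈ n.primeFactors, p := (Nat.prod_primeFactors_of_squarefree hn).symm
  unfold rd
  rw [Nat.primeFactors_mul hM hn0, hg, Finset.inter_comm, Finset.prod_union_inter]
  rw [← hnn]

theorem range_form (f : ℕ → ℕ) (hf : ∀ i, Squarefree (f i)) (k : ℕ) :
    rd (∏ i ∈ range k, f i) * ∏ j ∈ range k, Nat.gcd (f j) (∏ i ∈ range j, f i) =
      ∏ i ∈ range k, f i := by
  induction k with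
  | zero => simp [rd]
  | succ k ih =>
    have hM : ∏ i ∈ range k, f i ≠ 0 := Finset.prod_ne_zero_iff.2 fun i _ => (hf i).ne_zero
    rw [Finset.prod_range_succ, Finset.prod_range_succ (fun j => Nat.gcd (f j) (∏ i ∈ range j, f i))]
    calc rd ((∏ i ∈ range k, f i) * f k) *
          ((∏ j ∈ range k, Nat.gcd (f j) (∏ i ∈ range j, f i)) *
            Nat.gcd (f k) (∏ i ∈ range k, f i)) =
          (rd ((∏ i ∈ range k, f i) * f k) * Nat.gcd (f k) (∏ i ∈ range k, f i)) *
            ∏ j ∈ range k, Nat.gcd (f j) (∏ i ∈ range j, f i) := by ring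
      _ = (rd (∏ i ∈ range k, f i) * f k) *
            ∏ j ∈ range k, Nat.gcd (f j) (∏ i ∈ range j, f i) := by rw [rd_mul hM (hf k)]
      _ = (rd (∏ i ∈ range k, f i) * ∏ j ∈ range k, Nat.gcd (f j) (∏ i ∈ range j, f i)) * f k := by
          ring
      _ = _ := by rw [ih]

theorem rd_sq_le {a : ℕ} (ha : a ≠ 0) : rd (a * a) ≤ a := by
  unfold rd
  rw [Nat.primeFactors_mul ha ha, Finset.union_self]
  exact Nat.le_of_dvd (Nat.pos_of_ne_zero ha) (Nat.prod_primeFactors_dvd a)

theorem t_Gcd : S_Gcd := by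
  intro k n hsf hsq
  classical
  obtain ⟨f, hf⟩ : ∃ f : ℕ → ℕ, f = fun i => if h : i < k then n ⟨i, h⟩ else 1 := ⟨_, rfl⟩
  have hfn : ∀ i : Fin k, f (i : ℕ) = n i := by
    intro i
    rw [hf]
    exact dif_pos i.2
  have hfs : ∀ i, Squarefree (f i) := by
    intro i
    rw [hf]
    by_cases h : i < k
    · show Squarefree (if h : i < k then n ⟨i, h⟩ else 1)
      rw [dif_pos h]
      exact hsf _
    · show Squarefree (if h : i < k then n ⟨i, h⟩ else 1)
      rw [dif_neg h]
      exact squarefree_one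
  have hprod : ∏ i, n i = ∏ i ∈ range k, f i := by
    rw [Finset.prod_range]
    exact Finset.prod_congr rfl fun i _ => (hfn i).symm
  have hpre : ∀ j : Fin k, ∏ i ∈ univ.filter (fun i => i < j), n i = ∏ i ∈ range (j : ℕ), f i := by
    intro j
    rw [Finset.prod_filter]
    have e1 : ∏ i : Fin k, (if i < j then n i else 1) =
        ∏ i ∈ range k, (if i < (j : ℕ) then f i else 1) := by
      rw [Finset.prod_range]
      refine Finset.prod_congr rfl fun i _ => ?_
      rw [hfn i]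
      rfl
    rw [e1, ← Finset.prod_filter]
    refine Finset.prod_congr ?_ fun i _ => rfl
    ext i
    simp only [Finset.mem_filter, Finset.mem_range]
    have := j.2
    omega
  have hg : ∏ j, Nat.gcd (n j) (∏ i ∈ univ.filter (fun i => i < j), n i) =
      ∏ j ∈ range k, Nat.gcd (f j) (∏ i ∈ range j, f i) := by
    rw [Finset.prod_range]
    refine Finset.prod_congr rfl fun j _ => ?_
    rw [hpre j, hfn j]
  rw [hg]
  have hr := range_form f hfs k
  obtain ⟨a, ha⟩ := hsq
  have ha0 : a ≠ 0 := by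
    intro h
    rw [h, mul_zero] at ha
    exact Finset.prod_ne_zero_iff.2 (fun i _ => (hsf i).ne_zero) ha
  rw [← hprod, ha] at hr
  rw [ha]
  have h1 := rd_sq_le ha0
  have h2 : a * a ≤ a * ∏ j ∈ range k, Nat.gcd (f j) (∏ i ∈ range j, f i) := by
    calc a * a = rd (a * a) * ∏ j ∈ range k, Nat.gcd (f j) (∏ i ∈ range j, f i) := hr.symm
      _ ≤ _ := Nat.mul_le_mul_right _ h1
  have h3 : a ≤ ∏ j ∈ range k, Nat.gcd (f j) (∏ i ∈ range j, f i) :=
    Nat.le_of_mul_le_mul_left h2 (Nat.pos_of_ne_zero ha0)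
  rw [sq]
  exact Nat.mul_le_mul h3 h3

end Pool.Agent.Q14.QT
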