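import Pool.Agent.Q152.QT.Stm
import Pool.Agent.Helper919.Char

/-!
# Project QT of helper152, job QT5
-/

set_option autoImplicit false

namespace Pool.Agent.Q14.QT

open Finset
open Pool.Agent.Q152.QT

theorem t_Char : S_Char := by
  intro N hN hsq P
  have hN0 : (N : ℤ) ≠ 0 := by exact_mod_cast hN.ne'
  have hsqZ : ¬ IsSquare (N : ℤ) := by
    intro h
    exact hsq (Int.isSquare_natCast_iff.1 h)
  have h1 := Pool.Agent.Helper919.XX_sum_bound (N : ℤ) hN0 hsqZ P
  have e1 : ∑ d ∈ Ioc 0 P, Pool.Agent.Helper919.XX (N : ℤ) d =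
      ((∑ m ∈ (range (P + 1)).filter (fun m => Odd m), jacobiSym (N : ℤ) m : ℤ) : ℝ) := by
    rw [Finset.sum_filter]
    have e2 : (range (P + 1)) = insert 0 (Ioc 0 P) := by
      ext i
      simp only [Finset.mem_range, Finset.mem_insert, Finset.mem_Ioc]
      omega
    rw [e2, Finset.sum_insert (by simp), if_neg (by decide), zero_add]
    push_cast
    refine Finset.sum_congr rfl fun d _ => ?_
    rw [Pool.Agent.Helper919.XX_apply]
  rw [e1] at h1
  have h2 : ((|∑ m ∈ (range (P + 1)).filter (fun m => Odd m), jacobiSym (N : ℤ) m| : ℤ) : ℝ) ≤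
      ((4 * (N : ℤ) : ℤ) : ℝ) := by
    rw [Int.cast_abs]
    refine h1.trans (le_of_eq ?_)
    simp
  exact_mod_cast h2

end Pool.Agent.Q14.QT
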